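import Pool.Agent.D0H11.GM.Stm

set_option autoImplicit false

/-!
# GM 3: two quadruples with the same `u - v`, and one quadruple (`t_SU`)
-/

namespace Pool.Agent.D0H10.GM

open Finset MeasureTheory Filter Pool.Agent.D0H11.GM

/-- The assertion of `S_BTM` for the constant `C`. -/
def BT (C : ℝ) : Prop := ∀ y₁ y₂ : ℝ, 0 ≤ y₁ → y₁ ≤ y₂ →
  volume {y : ℝ | y ∈ Set.Icc y₁ y₂ ∧ (⌊y⌋₊ + 1).Prime} ≤
    ENNReal.ofReal (C * (y₂ - y₁ + 1) / Real.log (y₂ - y₁ + 2))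

/-- The primes `p` with `[p - 1, p)` meeting `[B₁, B₂]`. -/
noncomputable def pr (B₁ B₂ : ℝ) : Finset ℕ := (Finset.Icc (⌊B₁⌋₊ + 1) (⌊B₂⌋₊ + 1)).filter Nat.Prime

theorem floor_eq {p : ℕ} (hp : 1 ≤ p) {y : ℝ} (h1 : (p : ℝ) - 1 ≤ y) (h2 : y < p) :
    ⌊y⌋₊ + 1 = p := by
  have h : ⌊y⌋₊ = p - 1 := by
    rw [Nat.floor_eq_iff (by
      have : (1 : ℝ) ≤ p := by exact_mod_cast hp
      linarith)]
    rw [Nat.cast_sub hp, Nat.cast_one]
    constructor
    · linarith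
    · linarith
  omega

theorem card_pr {C : ℝ} (hB : BT C) {B₁ B₂ : ℝ} (h0 : 0 ≤ B₁) (h1 : B₁ ≤ B₂) :
    ((pr B₁ B₂).card : ENNReal) ≤
      ENNReal.ofReal (C * (B₂ - B₁ + 3) / Real.log (B₂ - B₁ + 4)) := by
  have hU : volume (⋃ p ∈ pr B₁ B₂, Set.Ico ((p : ℝ) - 1) p) = ((pr B₁ B₂).card : ENNReal) := by
    rw [measure_biUnion_finset]
    · have : ∀ p ∈ pr B₁ B₂, volume (Set.Ico ((p : ℝ) - 1) p) = 1 := by
        intro p _
        rw [Real.volume_Ico]
        simp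
      rw [Finset.sum_congr rfl this]
      simp
    · intro p hp p' hp' hne
      rw [Function.onFun, Set.disjoint_left]
      intro y hy hy'
      rw [Finset.mem_coe, pr, Finset.mem_filter] at hp hp'
      exact hne ((floor_eq hp.2.one_lt.le hy.1 hy.2).symm.trans
        (floor_eq hp'.2.one_lt.le hy'.1 hy'.2))
    · intro p _
      exact measurableSet_Ico
  rw [← hU]
  have hsub : (⋃ p ∈ pr B₁ B₂, Set.Ico ((p : ℝ) - 1) p) ⊆
      {y : ℝ | y ∈ Set.Icc ((⌊B₁⌋₊ : ℕ) : ℝ) ((⌊B₁⌋₊ : ℕ) + (B₂ - B₁) + 2) ∧ (⌊y⌋₊ + 1).Prime} := by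
    intro y hy
    rw [Set.mem_iUnion₂] at hy
    obtain ⟨p, hp, hy1, hy2⟩ := hy
    rw [pr, Finset.mem_filter, Finset.mem_Icc] at hp
    have e := floor_eq hp.2.one_lt.le hy1 hy2
    have f1 : ((⌊B₁⌋₊ : ℕ) : ℝ) + 1 ≤ p := by exact_mod_cast hp.1.1
    have f2 : (p : ℝ) ≤ ((⌊B₂⌋₊ : ℕ) : ℝ) + 1 := by exact_mod_cast hp.1.2
    have f3 : ((⌊B₂⌋₊ : ℕ) : ℝ) ≤ B₂ := Nat.floor_le (h0.trans h1)
    have f4 : B₁ < ((⌊B₁⌋₊ : ℕ) : ℝ) + 1 := Nat.lt_floor_add_one B₁
    refine ⟨⟨by linarith, by linarith⟩, ?_⟩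
    rw [e]
    exact hp.2
  refine (measure_mono hsub).trans ?_
  refine (hB _ _ (Nat.cast_nonneg _) (by linarith)).trans ?_
  apply le_of_eq
  congr 2
  · ring
  · congr 1
    ring

theorem per_p {C : ℝ} (hC : 0 < C) (hB : BT C) {k p : ℕ} (hk : 1 ≤ k) (hp : 1 ≤ p) :
    volume {L : ℝ | L ∈ Set.Icc ((p : ℝ) - 1) p ∧ (⌊2 ^ k * L⌋₊ + 1).Prime} ≤
      ENNReal.ofReal (2 * C / (k * Real.log 2)) := by
  have h2k : (0 : ℝ) < 2 ^ k := by positivity
  have hp1 : (1 : ℝ) ≤ p := by exact_mod_cast hp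
  have hk1 : (1 : ℝ) ≤ k := by exact_mod_cast hk
  have hsub : {L : ℝ | L ∈ Set.Icc ((p : ℝ) - 1) p ∧ (⌊2 ^ k * L⌋₊ + 1).Prime} ⊆
      (fun L : ℝ => 2 ^ k * L) ⁻¹'
        {y : ℝ | y ∈ Set.Icc (2 ^ k * ((p : ℝ) - 1)) (2 ^ k * p) ∧ (⌊y⌋₊ + 1).Prime} := by
    rintro L ⟨⟨h1, h2⟩, h3⟩
    exact ⟨⟨mul_le_mul_of_nonneg_left h1 h2k.le, mul_le_mul_of_nonneg_left h2 h2k.le⟩, h3⟩
  refine (measure_mono hsub).trans ?_
  rw [Real.volume_preimage_mul_left h2k.ne', abs_of_pos (inv_pos.2 h2k)]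
  have h3 := hB (2 ^ k * ((p : ℝ) - 1)) (2 ^ k * p) (by
    apply mul_nonneg h2k.le
    linarith) (by
    apply mul_le_mul_of_nonneg_left _ h2k.le
    linarith)
  refine (mul_le_mul_right h3 _).trans ?_
  rw [← ENNReal.ofReal_mul (inv_pos.2 h2k).le]
  apply ENNReal.ofReal_le_ofReal
  have e : (2 : ℝ) ^ k * p - 2 ^ k * ((p : ℝ) - 1) = 2 ^ k := by ring
  rw [e]
  have hlog : (k : ℝ) * Real.log 2 ≤ Real.log (2 ^ k + 2) := by
    rw [← Real.log_pow]
    apply Real.log_le_log h2k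
    linarith
  have hlog0 : 0 < (k : ℝ) * Real.log 2 := mul_pos (by linarith) (Real.log_pos one_lt_two)
  have h1k : (1 : ℝ) ≤ 2 ^ k := one_le_pow₀ one_le_two
  have h4 : ((2 : ℝ) ^ k)⁻¹ * (C * (2 ^ k + 1) / Real.log (2 ^ k + 2)) =
      (((2 : ℝ) ^ k)⁻¹ * (2 ^ k + 1)) * C / Real.log (2 ^ k + 2) := by ring
  rw [h4]
  have h5 : ((2 : ℝ) ^ k)⁻¹ * (2 ^ k + 1) ≤ 2 := by
    rw [inv_mul_le_iff₀ h2k]
    linarith
  have h6 : (((2 : ℝ) ^ k)⁻¹ * (2 ^ k + 1)) * C ≤ 2 * C := mul_le_mul_of_nonneg_right h5 hC.le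
  exact div_le_div₀ (by positivity) h6 hlog0 hlog

theorem two {C : ℝ} (hC : 0 < C) (hB : BT C) {k : ℕ} (hk : 1 ≤ k) {B₁ B₂ : ℝ} (h0 : 0 ≤ B₁)
    (h1 : B₁ ≤ B₂) :
    volume {L : ℝ | L ∈ Set.Icc B₁ B₂ ∧ (⌊L⌋₊ + 1).Prime ∧ (⌊2 ^ k * L⌋₊ + 1).Prime} ≤
      ENNReal.ofReal (C * (B₂ - B₁ + 3) / Real.log (B₂ - B₁ + 4)) *
        ENNReal.ofReal (2 * C / (k * Real.log 2)) := by
  have hsub : {L : ℝ | L ∈ Set.Icc B₁ B₂ ∧ (⌊L⌋₊ + 1).Prime ∧ (⌊2 ^ k * L⌋₊ + 1).Prime} ⊆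
      ⋃ p ∈ pr B₁ B₂, {L : ℝ | L ∈ Set.Icc ((p : ℝ) - 1) p ∧ (⌊2 ^ k * L⌋₊ + 1).Prime} := by
    rintro L ⟨⟨h2, h3⟩, h4, h5⟩
    rw [Set.mem_iUnion₂]
    have hL : 0 ≤ L := h0.trans h2
    refine ⟨⌊L⌋₊ + 1, ?_, ⟨?_, ?_⟩, h5⟩
    · rw [pr, Finset.mem_filter, Finset.mem_Icc]
      exact ⟨⟨Nat.succ_le_succ (Nat.floor_le_floor h2), Nat.succ_le_succ (Nat.floor_le_floor h3)⟩, h4⟩
    · push_cast
      have := Nat.floor_le hL
      linarith
    · push_cast
      exact (Nat.lt_floor_add_one L).le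
  refine (measure_mono hsub).trans ((measure_biUnion_finset_le _ _).trans ?_)
  have h6 : ∀ p ∈ pr B₁ B₂, volume {L : ℝ | L ∈ Set.Icc ((p : ℝ) - 1) p ∧
      (⌊2 ^ k * L⌋₊ + 1).Prime} ≤ ENNReal.ofReal (2 * C / (k * Real.log 2)) := by
    intro p hp
    rw [pr, Finset.mem_filter] at hp
    exact per_p hC hB hk hp.2.one_lt.le
  refine (Finset.sum_le_sum h6).trans ?_
  rw [Finset.sum_const, nsmul_eq_mul]
  exact mul_le_mul_left (card_pr hB h0 h1) _

/-- Fubini and the substitution `L = α 2 ^ u + β 2 ^ v`. -/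
theorem fub (c : ℝ × ℝ) (r : ℝ) (hS : Sq c r) (u v : ℕ) (A : Set ℝ) (hA : MeasurableSet A)
    (K : ENNReal) (hK : ∀ B₁ : ℝ, 0 < B₁ →
      volume {L : ℝ | L ∈ Set.Icc B₁ (B₁ + 2 * r * 2 ^ u) ∧ L ∈ A} ≤ K) :
    volume {a : ℝ × ℝ | a ∈ Metric.closedBall c r ∧ a.1 * 2 ^ u + a.2 * 2 ^ v ∈ A} ≤
      ENNReal.ofReal (((2 : ℝ) ^ u)⁻¹) * K * ENNReal.ofReal (2 * r) := by
  obtain ⟨hr, hc1, hc2⟩ := hS
  have h2u : (0 : ℝ) < 2 ^ u := by positivity
  have h2v : (0 : ℝ) < 2 ^ v := by positivity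
  have hmeas : MeasurableSet {a : ℝ × ℝ | a ∈ Metric.closedBall c r ∧
      a.1 * 2 ^ u + a.2 * 2 ^ v ∈ A} := by
    refine MeasurableSet.inter Metric.isClosed_closedBall.measurableSet ?_
    have hf : Measurable fun a : ℝ × ℝ => a.1 * 2 ^ u + a.2 * 2 ^ v := by fun_prop
    exact hf hA
  rw [Measure.volume_eq_prod, Measure.prod_apply_symm hmeas]
  have hslice : ∀ β : ℝ, volume ((fun x : ℝ => (x, β)) ⁻¹' {a : ℝ × ℝ |
      a ∈ Metric.closedBall c r ∧ a.1 * 2 ^ u + a.2 * 2 ^ v ∈ A}) ≤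
      (Set.Icc (c.2 - r) (c.2 + r)).indicator
        (fun _ => ENNReal.ofReal (((2 : ℝ) ^ u)⁻¹) * K) β := by
    intro β
    by_cases hβ : β ∈ Set.Icc (c.2 - r) (c.2 + r)
    · rw [Set.indicator_of_mem hβ]
      set B₁ : ℝ := (c.1 - r) * 2 ^ u + β * 2 ^ v with hB₁
      have hB₁0 : 0 < B₁ := by
        have h1 : 0 < (c.1 - r) * 2 ^ u := mul_pos (by linarith) h2u
        have h2 : 0 < β * 2 ^ v := mul_pos (by linarith [hβ.1]) h2v
        linarith
      have hsub : ((fun x : ℝ => (x, β)) ⁻¹' {a : ℝ × ℝ |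
          a ∈ Metric.closedBall c r ∧ a.1 * 2 ^ u + a.2 * 2 ^ v ∈ A}) ⊆
          (fun x : ℝ => x * 2 ^ u) ⁻¹' ((fun x : ℝ => x + β * 2 ^ v) ⁻¹'
            {L : ℝ | L ∈ Set.Icc B₁ (B₁ + 2 * r * 2 ^ u) ∧ L ∈ A}) := by
        rintro x ⟨hx, hxA⟩
        rw [Metric.mem_closedBall, Prod.dist_eq, max_le_iff, Real.dist_eq, abs_le] at hx
        have hx1 : c.1 - r ≤ x := by
          have := hx.1.1
          dsimp only at this
          linarith
        have hx2 : x ≤ c.1 + r := by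
          have := hx.1.2
          dsimp only at this
          linarith
        refine ⟨⟨?_, ?_⟩, hxA⟩
        · have := mul_le_mul_of_nonneg_right hx1 h2u.le
          change B₁ ≤ x * 2 ^ u + β * 2 ^ v
          linarith
        · have := mul_le_mul_of_nonneg_right hx2 h2u.le
          change x * 2 ^ u + β * 2 ^ v ≤ B₁ + 2 * r * 2 ^ u
          rw [hB₁]
          nlinarith
      refine (measure_mono hsub).trans ?_
      rw [Real.volume_preimage_mul_right h2u.ne', abs_of_pos (inv_pos.2 h2u),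
        measure_preimage_add_right]
      exact mul_le_mul_right (hK B₁ hB₁0) _
    · rw [Set.indicator_of_notMem hβ]
      have hempty : ((fun x : ℝ => (x, β)) ⁻¹' {a : ℝ × ℝ |
          a ∈ Metric.closedBall c r ∧ a.1 * 2 ^ u + a.2 * 2 ^ v ∈ A}) = ∅ := by
        rw [Set.eq_empty_iff_forall_notMem]
        rintro x ⟨hx, -⟩
        apply hβ
        rw [Metric.mem_closedBall, Prod.dist_eq, max_le_iff] at hx
        have := hx.2
        rw [Real.dist_eq, abs_le] at this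
        dsimp only at this
        exact ⟨by linarith [this.1], by linarith [this.2]⟩
      rw [hempty, measure_empty]
  refine (lintegral_mono hslice).trans ?_
  rw [lintegral_indicator measurableSet_Icc, setLIntegral_const, Real.volume_Icc]
  apply le_of_eq
  congr 2
  ring

theorem t_SU (hBT : S_BTM) : S_SU := by
  obtain ⟨C, hC, hB⟩ := hBT
  have hB' : BT C := hB
  have hl2 : 0 < Real.log 2 := Real.log_pos one_lt_two
  refine ⟨12 * C ^ 2 / Real.log 2 ^ 2 + 6 * C / Real.log 2, by positivity, ?_⟩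
  intro c r hS
  obtain ⟨hr, hc1, hc2⟩ := id hS
  -- large `M`
  have hM1 : ∀ᶠ M : ℕ in atTop, 3 ≤ r * 2 ^ (2 * M) := by
    have h1 : Tendsto (fun M : ℕ => r * (2 : ℝ) ^ (2 * M)) atTop atTop := by
      apply Tendsto.const_mul_atTop hr
      exact (tendsto_pow_atTop_atTop_of_one_lt one_lt_two).comp
        (tendsto_id.const_mul_atTop' (by norm_num))
    exact h1.eventually_ge_atTop 3
  have hM2 : ∀ᶠ M : ℕ in atTop, -Real.log (2 * r) ≤ M * Real.log 2 := by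
    have h1 : Tendsto (fun M : ℕ => (M : ℝ) * Real.log 2) atTop atTop :=
      Tendsto.atTop_mul_const hl2 tendsto_natCast_atTop_atTop
    exact h1.eventually_ge_atTop _
  filter_upwards [hM1, hM2, eventually_ge_atTop 1] with M h1 h2 h3 q hq q' hq'
  have hu : 2 * M ≤ uu q := by
    rw [QQ, Finset.mem_filter, Fintype.mem_piFinset] at hq
    have e0 := Finset.mem_Ico.1 (hq.1 0)
    have e1 := Finset.mem_Ico.1 (hq.1 1)
    unfold uu
    omega
  have hM0 : (0 : ℝ) < M := by exact_mod_cast h3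
  set u := uu q with hud
  have h2u : (0 : ℝ) < 2 ^ u := by positivity
  have hru : 3 ≤ r * 2 ^ u :=
    h1.trans (mul_le_mul_of_nonneg_left (pow_le_pow_right₀ one_le_two hu) hr.le)
  have hlog : (M : ℝ) * Real.log 2 ≤ Real.log (2 * r * 2 ^ u) := by
    rw [Real.log_mul (by positivity) (by positivity), Real.log_pow]
    have h4 : (2 * (M : ℝ)) * Real.log 2 ≤ (u : ℝ) * Real.log 2 := by
      apply mul_le_mul_of_nonneg_right _ hl2.le
      exact_mod_cast hu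
    linarith
  have hMl : 0 < (M : ℝ) * Real.log 2 := mul_pos hM0 hl2
  have key3 : C * (2 * r * 2 ^ u + 3) / Real.log (2 * r * 2 ^ u + 4) ≤
      3 * C * (r * 2 ^ u) / (M * Real.log 2) := by
    apply div_le_div₀ (by positivity)
    · nlinarith
    · exact hMl
    · refine hlog.trans (Real.log_le_log (by positivity) (by linarith))
  have key1 : C * (2 * r * 2 ^ u + 1) / Real.log (2 * r * 2 ^ u + 2) ≤
      3 * C * (r * 2 ^ u) / (M * Real.log 2) := by
    apply div_le_div₀ (by positivity)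
    · nlinarith
    · exact hMl
    · refine hlog.trans (Real.log_le_log (by positivity) (by linarith))
  have hfl : MeasurableSet {L : ℝ | (⌊L⌋₊ + 1).Prime} := by
    have hf : Measurable fun L : ℝ => ⌊L⌋₊ + 1 := (Nat.measurable_floor).add_const 1
    exact hf (MeasurableSet.of_discrete (s := {n : ℕ | n.Prime}))
  refine ⟨?_, ?_⟩
  · intro k hk huk hvk
    have hk0 : (0 : ℝ) < k := by exact_mod_cast hk
    set A : Set ℝ := {L : ℝ | (⌊L⌋₊ + 1).Prime ∧ (⌊2 ^ k * L⌋₊ + 1).Prime} with hAd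
    have hA : MeasurableSet A := by
      refine hfl.inter ?_
      have hg : Measurable fun L : ℝ => 2 ^ k * L := by fun_prop
      exact hg hfl
    have hT := fub c r hS u (vv q) A hA
      (ENNReal.ofReal (3 * C * (r * 2 ^ u) / (M * Real.log 2)) *
        ENNReal.ofReal (2 * C / (k * Real.log 2))) (by
        intro B₁ hB₁
        have h5 := two hC hB' hk hB₁.le (B₂ := B₁ + 2 * r * 2 ^ u) (by
          have : 0 < 2 * r * 2 ^ u := by positivity
          linarith)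
        refine h5.trans ?_
        apply mul_le_mul_left
        apply ENNReal.ofReal_le_ofReal
        rw [add_sub_cancel_left]
        exact key3)
    have hset : {a : ℝ × ℝ | a ∈ Metric.closedBall c r ∧ PP a q ∧ PP a q'} ⊆
        {a : ℝ × ℝ | a ∈ Metric.closedBall c r ∧ a.1 * 2 ^ u + a.2 * 2 ^ (vv q) ∈ A} := by
      rintro a ⟨ha, h5, h6⟩
      refine ⟨ha, h5, ?_⟩
      have e : LL a q' = 2 ^ k * (a.1 * 2 ^ u + a.2 * 2 ^ (vv q)) := by
        unfold LL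
        rw [huk, hvk, pow_add, pow_add]
        ring
      unfold PP at h6
      rw [e] at h6
      exact h6
    refine (measure_mono hset).trans (hT.trans ?_)
    rw [← ENNReal.ofReal_mul (by positivity), ← ENNReal.ofReal_mul (by positivity),
      ← ENNReal.ofReal_mul (by positivity)]
    apply ENNReal.ofReal_le_ofReal
    have e : ((2 : ℝ) ^ u)⁻¹ * (3 * C * (r * 2 ^ u) / (M * Real.log 2) *
        (2 * C / (k * Real.log 2))) * (2 * r) =
        (12 * C ^ 2 / Real.log 2 ^ 2) * r ^ 2 / (M * k) := by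
      field_simp
      ring
    rw [e]
    apply div_le_div_of_nonneg_right _ (by positivity)
    apply mul_le_mul_of_nonneg_right _ (by positivity)
    have : 0 < 6 * C / Real.log 2 := by positivity
    linarith
  · have hT := fub c r hS u (vv q) {L : ℝ | (⌊L⌋₊ + 1).Prime} hfl
      (ENNReal.ofReal (3 * C * (r * 2 ^ u) / (M * Real.log 2))) (by
        intro B₁ hB₁
        have h5 := hB B₁ (B₁ + 2 * r * 2 ^ u) hB₁.le (by
          have : 0 < 2 * r * 2 ^ u := by positivity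
          linarith)
        refine h5.trans ?_
        apply ENNReal.ofReal_le_ofReal
        rw [add_sub_cancel_left]
        exact key1)
    refine (measure_mono (fun a ha => ha)).trans (hT.trans ?_)
    rw [← ENNReal.ofReal_mul (by positivity), ← ENNReal.ofReal_mul (by positivity)]
    apply ENNReal.ofReal_le_ofReal
    have e : ((2 : ℝ) ^ u)⁻¹ * (3 * C * (r * 2 ^ u) / (M * Real.log 2)) * (2 * r) =
        (6 * C / Real.log 2) * r ^ 2 / M := by
      field_simp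
      ring
    rw [e]
    apply div_le_div_of_nonneg_right _ (by positivity)
    apply mul_le_mul_of_nonneg_right _ (by positivity)
    have : 0 < 12 * C ^ 2 / Real.log 2 ^ 2 := by positivity
    linarith

end Pool.Agent.D0H10.GM
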